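import Pool.Agent.HofQ.Basic

/-!
# Hofstadter's Q-sequence: the values up to seven
-/

set_option autoImplicit false

namespace Pool.Agent.H30HQ

open Pool.Agent.HofQ

variable {f : ℕ → ℕ}

theorem v3 (h : Sol f) : f 3 = 2 := by
  have := h.eqn 3 (by norm_num)
  simpa [h.h1, h.h2] using this

theorem v4 (h : Sol f) : f 4 = 3 := by
  have := h.eqn 4 (by norm_num)
  simpa [h.h1, h.h2, v3 h] using this

theorem v5 (h : Sol f) : f 5 = 3 := by
  have := h.eqn 5 (by norm_num)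
  simpa [h.h1, h.h2, v3 h, v4 h] using this

theorem v6 (h : Sol f) : f 6 = 4 := by
  have := h.eqn 6 (by norm_num)
  simpa [h.h1, h.h2, v3 h, v4 h, v5 h] using this

theorem v7 (h : Sol f) : f 7 = 5 := by
  have := h.eqn 7 (by norm_num)
  simpa [h.h1, h.h2, v3 h, v4 h, v5 h, v6 h] using this

theorem v8 (h : Sol f) : f 8 = 5 := by
  have := h.eqn 8 (by norm_num)
  simpa [h.h1, h.h2, v3 h, v4 h, v5 h, v6 h, v7 h] using this

theorem v9 (h : Sol f) : f 9 = 6 := by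
  have := h.eqn 9 (by norm_num)
  simpa [h.h1, h.h2, v3 h, v4 h, v5 h, v6 h, v7 h, v8 h] using this

theorem v10 (h : Sol f) : f 10 = 6 := by
  have := h.eqn 10 (by norm_num)
  simpa [h.h1, h.h2, v3 h, v4 h, v5 h, v6 h, v7 h, v8 h, v9 h] using this

theorem v11 (h : Sol f) : f 11 = 6 := by
  have := h.eqn 11 (by norm_num)
  simpa [h.h1, h.h2, v3 h, v4 h, v5 h, v6 h, v7 h, v8 h, v9 h, v10 h] using this

theorem v12 (h : Sol f) : f 12 = 8 := by
  have := h.eqn 12 (by norm_num)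
  simpa [h.h1, h.h2, v3 h, v4 h, v5 h, v6 h, v7 h, v8 h, v9 h, v10 h, v11 h] using this

theorem v13 (h : Sol f) : f 13 = 8 := by
  have := h.eqn 13 (by norm_num)
  simpa [h.h1, h.h2, v3 h, v4 h, v5 h, v6 h, v7 h, v8 h, v9 h, v10 h, v11 h, v12 h] using this

theorem v14 (h : Sol f) : f 14 = 8 := by
  have := h.eqn 14 (by norm_num)
  simpa [h.h1, h.h2, v3 h, v4 h, v5 h, v6 h, v7 h, v8 h, v9 h, v10 h, v11 h, v12 h, v13 h] using this

theorem v15 (h : Sol f) : f 15 = 10 := by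
  have := h.eqn 15 (by norm_num)
  simpa [h.h1, h.h2, v3 h, v4 h, v5 h, v6 h, v7 h, v8 h, v9 h, v10 h, v11 h, v12 h, v13 h, v14 h] using this

theorem v16 (h : Sol f) : f 16 = 9 := by
  have := h.eqn 16 (by norm_num)
  simpa [h.h1, h.h2, v3 h, v4 h, v5 h, v6 h, v7 h, v8 h, v9 h, v10 h, v11 h, v12 h, v13 h, v14 h, v15 h] using this

theorem v17 (h : Sol f) : f 17 = 10 := by
  have := h.eqn 17 (by norm_num)
  simpa [h.h1, h.h2, v3 h, v4 h, v5 h, v6 h, v7 h, v8 h, v9 h, v10 h, v11 h, v12 h, v13 h, v14 h, v15 h, v16 h] using this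

theorem v18 (h : Sol f) : f 18 = 11 := by
  have := h.eqn 18 (by norm_num)
  simpa [h.h1, h.h2, v3 h, v4 h, v5 h, v6 h, v7 h, v8 h, v9 h, v10 h, v11 h, v12 h, v13 h, v14 h, v15 h, v16 h, v17 h] using this

theorem v19 (h : Sol f) : f 19 = 11 := by
  have := h.eqn 19 (by norm_num)
  simpa [h.h1, h.h2, v3 h, v4 h, v5 h, v6 h, v7 h, v8 h, v9 h, v10 h, v11 h, v12 h, v13 h, v14 h, v15 h, v16 h, v17 h, v18 h] using this

theorem v20 (h : Sol f) : f 20 = 12 := by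
  have := h.eqn 20 (by norm_num)
  simpa [h.h1, h.h2, v3 h, v4 h, v5 h, v6 h, v7 h, v8 h, v9 h, v10 h, v11 h, v12 h, v13 h, v14 h, v15 h, v16 h, v17 h, v18 h, v19 h] using this

theorem v21 (h : Sol f) : f 21 = 12 := by
  have := h.eqn 21 (by norm_num)
  simpa [h.h1, h.h2, v3 h, v4 h, v5 h, v6 h, v7 h, v8 h, v9 h, v10 h, v11 h, v12 h, v13 h, v14 h, v15 h, v16 h, v17 h, v18 h, v19 h, v20 h] using this

theorem v22 (h : Sol f) : f 22 = 12 := by
  have := h.eqn 22 (by norm_num)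
  simpa [h.h1, h.h2, v3 h, v4 h, v5 h, v6 h, v7 h, v8 h, v9 h, v10 h, v11 h, v12 h, v13 h, v14 h, v15 h, v16 h, v17 h, v18 h, v19 h, v20 h, v21 h] using this

theorem v23 (h : Sol f) : f 23 = 12 := by
  have := h.eqn 23 (by norm_num)
  simpa [h.h1, h.h2, v3 h, v4 h, v5 h, v6 h, v7 h, v8 h, v9 h, v10 h, v11 h, v12 h, v13 h, v14 h, v15 h, v16 h, v17 h, v18 h, v19 h, v20 h, v21 h, v22 h] using this

theorem v24 (h : Sol f) : f 24 = 16 := by
  have := h.eqn 24 (by norm_num)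
  simpa [h.h1, h.h2, v3 h, v4 h, v5 h, v6 h, v7 h, v8 h, v9 h, v10 h, v11 h, v12 h, v13 h, v14 h, v15 h, v16 h, v17 h, v18 h, v19 h, v20 h, v21 h, v22 h, v23 h] using this

theorem pairs7 (h : Sol f) {A B : ℕ} (a1 : 1 ≤ A) (a2 : A ≤ 11) (b1 : 2 ≤ B) (b2 : B ≤ 11)
    (h1 : f A + f B ≤ 7) (h2 : 9 ≤ A + f (B - 1)) :
    (B = 2 ∧ 8 ≤ A) ∨ (A = 8 ∧ B = 3) ∨ (A = 6 ∧ B = 5) := by
  have w := And.intro h.h1 (And.intro h.h2 (And.intro (v3 h) (And.intro (v4 h) (And.intro (v5 h)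
    (And.intro (v6 h) (And.intro (v7 h) (And.intro (v8 h) (And.intro (v9 h)
    (And.intro (v10 h) (v11 h))))))))))
  obtain ⟨w1, w2, w3, w4, w5, w6, w7, w8, w9, w10, w11⟩ := w
  interval_cases B <;> norm_num at h2 <;> interval_cases A <;> omega

theorem pairs5 (h : Sol f) {A B : ℕ} (a1 : 1 ≤ A) (a2 : A ≤ 8) (b1 : 2 ≤ B) (b2 : B ≤ 8)
    (h1 : f A + f B ≤ 5) (h2 : 7 ≤ A + f (B - 1)) : A = 6 ∧ B = 2 := by
  have w := And.intro h.h1 (And.intro h.h2 (And.intro (v3 h) (And.intro (v4 h) (And.intro (v5 h)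
    (And.intro (v6 h) (And.intro (v7 h) (v8 h)))))))
  obtain ⟨w1, w2, w3, w4, w5, w6, w7, w8⟩ := w
  interval_cases B <;> norm_num at h2 <;> interval_cases A <;> omega

theorem le8 (h : Sol f) {k : ℕ} (h1 : 1 ≤ k) (h2 : k ≤ 14) : f k ≤ 8 := by
  interval_cases k <;> simp [h.h1, h.h2, v3 h, v4 h, v5 h, v6 h, v7 h, v8 h, v9 h, v10 h, v11 h, v12 h, v13 h, v14 h, v15 h, v16 h, v17 h, v18 h, v19 h, v20 h, v21 h, v22 h, v23 h, v24 h]

theorem le6 (h : Sol f) {k : ℕ} (h1 : 1 ≤ k) (h2 : k ≤ 9) : f k ≤ 6 := by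
  interval_cases k <;> simp [h.h1, h.h2, v3 h, v4 h, v5 h, v6 h, v7 h, v8 h, v9 h, v10 h, v11 h, v12 h, v13 h, v14 h, v15 h, v16 h, v17 h, v18 h, v19 h, v20 h, v21 h, v22 h, v23 h, v24 h]

theorem le3 (h : Sol f) {k : ℕ} (h1 : 1 ≤ k) (h2 : k ≤ 5) : f k ≤ 3 := by
  interval_cases k <;> simp [h.h1, h.h2, v3 h, v4 h, v5 h, v6 h, v7 h, v8 h, v9 h, v10 h, v11 h, v12 h, v13 h, v14 h, v15 h, v16 h, v17 h, v18 h, v19 h, v20 h, v21 h, v22 h, v23 h, v24 h]

theorem le5 (h : Sol f) {k : ℕ} (h1 : 1 ≤ k) (h2 : k ≤ 8) : f k ≤ 5 := by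
  interval_cases k <;> simp [h.h1, h.h2, v3 h, v4 h, v5 h, v6 h, v7 h, v8 h, v9 h, v10 h, v11 h, v12 h, v13 h, v14 h, v15 h, v16 h, v17 h, v18 h, v19 h, v20 h, v21 h, v22 h, v23 h, v24 h]

theorem le2 (h : Sol f) {k : ℕ} (h1 : 1 ≤ k) (h2 : k ≤ 3) : f k ≤ 2 := by
  interval_cases k <;> simp [h.h1, h.h2, v3 h, v4 h, v5 h, v6 h, v7 h, v8 h, v9 h, v10 h, v11 h, v12 h, v13 h, v14 h, v15 h, v16 h, v17 h, v18 h, v19 h, v20 h, v21 h, v22 h, v23 h, v24 h]

theorem le12 (h : Sol f) {k : ℕ} (h1 : 1 ≤ k) (h2 : k ≤ 23) : f k ≤ 12 := by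
  interval_cases k <;> simp [h.h1, h.h2, v3 h, v4 h, v5 h, v6 h, v7 h, v8 h, v9 h, v10 h, v11 h, v12 h, v13 h, v14 h, v15 h, v16 h, v17 h, v18 h, v19 h, v20 h, v21 h, v22 h, v23 h, v24 h]

theorem ge4 (h : Sol f) {k : ℕ} (h1 : 6 ≤ k) (h2 : k ≤ 11) : 4 ≤ f k := by
  interval_cases k <;> simp [h.h1, h.h2, v3 h, v4 h, v5 h, v6 h, v7 h, v8 h, v9 h, v10 h, v11 h, v12 h, v13 h, v14 h, v15 h, v16 h, v17 h, v18 h, v19 h, v20 h, v21 h, v22 h, v23 h, v24 h]

theorem ge8 (h : Sol f) {k : ℕ} (h1 : 12 ≤ k) (h2 : k ≤ 24) : 8 ≤ f k := by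
  interval_cases k <;> simp [h.h1, h.h2, v3 h, v4 h, v5 h, v6 h, v7 h, v8 h, v9 h, v10 h, v11 h, v12 h, v13 h, v14 h, v15 h, v16 h, v17 h, v18 h, v19 h, v20 h, v21 h, v22 h, v23 h, v24 h]

theorem ge6 (h : Sol f) {k : ℕ} (h1 : 9 ≤ k) (h2 : k ≤ 24) : 6 ≤ f k := by
  interval_cases k <;> simp [h.h1, h.h2, v3 h, v4 h, v5 h, v6 h, v7 h, v8 h, v9 h, v10 h, v11 h, v12 h, v13 h, v14 h, v15 h, v16 h, v17 h, v18 h, v19 h, v20 h, v21 h, v22 h, v23 h, v24 h]

/-- The equations at `n`, `n - 1`, `n - 2`, `n - 3`. -/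
theorem eqs (h : Sol f) {n : ℕ} (hn : 25 ≤ n) :
    f n = f (n - f (n - 1)) + f (n - f (n - 2)) ∧
    f (n - 1) = f (n - 1 - f (n - 2)) + f (n - 1 - f (n - 3)) ∧
    f (n - 2) = f (n - 2 - f (n - 3)) + f (n - 2 - f (n - 4)) ∧
    f (n - 3) = f (n - 3 - f (n - 4)) + f (n - 3 - f (n - 5)) := by
  refine ⟨h.eqn n (by omega), ?_, ?_, ?_⟩
  · have := h.eqn (n - 1) (by omega)
    rwa [show n - 1 - 1 = n - 2 by omega, show n - 1 - 2 = n - 3 by omega] at this
  · have := h.eqn (n - 2) (by omega)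
    rwa [show n - 2 - 1 = n - 3 by omega, show n - 2 - 2 = n - 4 by omega] at this
  · have := h.eqn (n - 3) (by omega)
    rwa [show n - 3 - 1 = n - 4 by omega, show n - 3 - 2 = n - 5 by omega] at this

/-- If a value at most seven is taken at some `n ≥ 12`, then `f m = m` for some `m ≥ 34`. -/
theorem seven (h : Sol f) (hex : ∃ n, 12 ≤ n ∧ f n ≤ 7) :
    ∃ m, 34 ≤ m ∧ f m = m ∧ f (m + 2) = 7 ∧ m ≤ f (m + 1) + 9 ∧ f (m + 1) + 7 ≤ m ∧
      9 ≤ f (m - 1) ∧ f (m - 1) ≤ 11 ∧ m ≤ f (m - 3) + 6 ∧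
      ∃ P, 25 ≤ P ∧ P < m ∧ 8 ≤ f P ∧ f P ≤ 10 ∧ 16 ≤ f (P + 1) ∧ f (m - 2) + P + 1 = m := by
  classical
  obtain ⟨n, ⟨hn12, hn7⟩, hmin'⟩ : ∃ n, (12 ≤ n ∧ f n ≤ 7) ∧ ∀ j < n, ¬ (12 ≤ j ∧ f j ≤ 7) :=
    ⟨Nat.find hex, Nat.find_spec hex, fun j hj => Nat.find_min hex hj⟩
  have hmin : ∀ j, 12 ≤ j → j < n → 8 ≤ f j := by
    intro j h1 h2
    have := hmin' j h2
    omega
  have hn : 25 ≤ n := by
    by_contra hc
    have := ge8 h hn12 (by omega)
    omega
  have small : ∀ j, j < n → f j ≤ 7 → j ≤ 11 := by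
    intro j h1 h2
    by_contra hc
    have := hmin j (by omega) h1
    omega
  obtain ⟨e0, e1, e2, e3⟩ := eqs h hn
  have g1 := hmin (n - 1) (by omega) (by omega)
  have g2 := hmin (n - 2) (by omega) (by omega)
  have g3 := hmin (n - 3) (by omega) (by omega)
  have g4 := hmin (n - 4) (by omega) (by omega)
  have g5 := hmin (n - 5) (by omega) (by omega)
  have l1 := h.le (n - 1) (by omega)
  have l2 := h.le (n - 2) (by omega)
  have l3 := h.le (n - 3) (by omega)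
  have l4 := h.le (n - 4) (by omega)
  have l5 := h.le (n - 5) (by omega)
  obtain ⟨A, hA⟩ : ∃ A, A = n - f (n - 1) := ⟨_, rfl⟩
  obtain ⟨B, hB⟩ : ∃ B, B = n - f (n - 2) := ⟨_, rfl⟩
  rw [← hA, ← hB] at e0
  have a1 : 1 ≤ A := by omega
  have b1 : 2 ≤ B := by omega
  have a2 : A ≤ 11 := small A (by omega) (by omega)
  have b2 : B ≤ 11 := small B (by omega) (by omega)
  rw [show n - 1 - f (n - 2) = B - 1 by omega] at e1
  have k1 := h.le (n - 1 - f (n - 3)) (by omega)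
  have hp := pairs7 h a1 a2 b1 b2 (by omega) (by omega)
  rcases Nat.lt_or_ge (f (n - 3)) 9 with hw | hw
  · exfalso
    have hw8 : f (n - 3) = 8 := by omega
    rw [hw8] at e1 e2 e3 k1
    have q1 := h.pos (n - 3 - f (n - 5)) (by omega)
    have p2 : n - 3 - f (n - 4) ≤ 11 := small _ (by omega) (by omega)
    have p3 := le8 h (k := n - 2 - f (n - 4)) (by omega) (by omega)
    have k2 := h.le (n - 2 - 8) (by omega)
    have e8 := h.eqn (n - 8) (by omega)
    rw [show n - 8 - 1 = n - 1 - 8 by omega, show n - 8 - 2 = n - 2 - 8 by omega] at e8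
    have g8 := hmin (n - 8) (by omega) (by omega)
    have b7 : f (B - 1) ≤ 3 := le3 h (by omega) (by omega)
    have r1 : f (n - 8 - f (n - 1 - 8)) ≤ 3 := by
      refine le3 h (by omega) ?_
      rcases hp with ⟨hb, ha⟩ | ⟨ha, hb⟩ | ⟨ha, hb⟩
      · subst hb
        have := h.h1
        norm_num at e1
        omega
      · subst hb
        have := h.h2
        norm_num at e1
        omega
      · subst hb
        omega
    have r2 : f (n - 8 - f (n - 2 - 8)) ≤ 3 := le3 h (by omega) (by omega)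
    omega
  · have hB2 : B = 2 ∧ 9 ≤ A := by
      rcases hp with ⟨hb, ha⟩ | ⟨ha, hb⟩ | ⟨ha, hb⟩
      · subst hb
        have := h.h1
        norm_num at e1
        exact ⟨rfl, by omega⟩
      · subst hb
        have := h.h2
        norm_num at e1
        omega
      · subst hb
        have := v4 h
        norm_num at e1
        omega
    obtain ⟨hb, ha⟩ := hB2
    subst hb
    have h1 := h.h1
    have h2 := h.h2
    have fA : f A = 6 := by
      have x9 := v9 h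
      have x10 := v10 h
      have x11 := v11 h
      have : A = 9 ∨ A = 10 ∨ A = 11 := by omega
      rcases this with h | h | h <;> rw [h] <;> assumption
    norm_num at e1
    have k2 := h.le (n - 2 - f (n - 3)) (by omega)
    have p1 : 15 ≤ n - 2 - f (n - 4) := by
      by_contra hc
      have := le8 h (k := n - 2 - f (n - 4)) (by omega) (by omega)
      omega
    have p2 := hmin (n - 3 - f (n - 4)) (by omega) (by omega)
    have q2 := small (n - 3 - f (n - 5)) (by omega) (by omega)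
    have q3 : n - 3 - f (n - 5) ≤ 5 := by
      by_contra hc
      have := ge4 h (k := n - 3 - f (n - 5)) (by omega) q2
      omega
    have q1 := h.pos (n - 3 - f (n - 5)) (by omega)
    have ew := h.eqn (n - f (n - 3)) (by omega)
    rw [show n - f (n - 3) - 1 = n - 1 - f (n - 3) by omega,
      show n - f (n - 3) - 2 = n - 2 - f (n - 3) by omega] at ew
    have gw := hmin (n - f (n - 3)) (by omega) (by omega)
    have s1 : f (n - f (n - 3) - f (n - 1 - f (n - 3))) ≤ 2 := le2 h (by omega) (by omega)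
    have s2 : 9 ≤ n - f (n - 3) - f (n - 2 - f (n - 3)) := by
      by_contra hc
      have := le5 h (k := n - f (n - 3) - f (n - 2 - f (n - 3))) (by omega) (by omega)
      omega
    have s3 : 16 ≤ f (n - 2 - f (n - 4)) := by omega
    have s4 : 24 ≤ n - 2 - f (n - 4) := by
      by_contra hc
      have := le12 h (k := n - 2 - f (n - 4)) (by omega) (by omega)
      omega
    have s5 : 25 ≤ n - 3 - f (n - 4) := by
      by_contra hc
      have : n - 3 - f (n - 4) = 23 ∨ n - 3 - f (n - 4) = 24 := by omega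
      have v23' := v23 h
      have v24' := v24 h
      rcases this with hh | hh
      · rw [hh] at e3
        omega
      · rw [hh] at e3
        omega
    refine ⟨n - 2, by omega, by omega, ?_, ?_, ?_, ?_, ?_, ?_, n - 3 - f (n - 4), s5, by omega, p2,
      by omega, ?_, ?_⟩
    · rw [show n - 2 + 2 = n by omega]; omega
    · rw [show n - 2 + 1 = n - 1 by omega]; omega
    · rw [show n - 2 + 1 = n - 1 by omega]; omega
    · rw [show n - 2 - 1 = n - 3 by omega]; omega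
    · rw [show n - 2 - 1 = n - 3 by omega]; omega
    · rw [show n - 2 - 3 = n - 5 by omega]; omega
    · rw [show n - 3 - f (n - 4) + 1 = n - 2 - f (n - 4) by omega]; omega
    · rw [show n - 2 - 2 = n - 4 by omega]; omega

/-- The values up to five are taken only at `n ≤ 8`. -/
theorem five (h : Sol f) : ∀ n, 9 ≤ n → 6 ≤ f n := by
  classical
  by_contra hne
  push Not at hne
  obtain ⟨n, ⟨hn12, hn7⟩, hmin'⟩ : ∃ n, (9 ≤ n ∧ f n < 6) ∧ ∀ j < n, ¬ (9 ≤ j ∧ f j < 6) :=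
    ⟨Nat.find hne, Nat.find_spec hne, fun j hj => Nat.find_min hne hj⟩
  have hmin : ∀ j, 9 ≤ j → j < n → 6 ≤ f j := by
    intro j h1 h2
    have := hmin' j h2
    omega
  have hn : 25 ≤ n := by
    by_contra hc
    have := ge6 h hn12 (by omega)
    omega
  have small : ∀ j, j < n → f j ≤ 5 → j ≤ 8 := by
    intro j h1 h2
    by_contra hc
    have := hmin j (by omega) h1
    omega
  obtain ⟨e0, e1, e2, e3⟩ := eqs h hn
  have g1 := hmin (n - 1) (by omega) (by omega)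
  have g2 := hmin (n - 2) (by omega) (by omega)
  have g3 := hmin (n - 3) (by omega) (by omega)
  have g4 := hmin (n - 4) (by omega) (by omega)
  have g5 := hmin (n - 5) (by omega) (by omega)
  have l1 := h.le (n - 1) (by omega)
  have l2 := h.le (n - 2) (by omega)
  have l3 := h.le (n - 3) (by omega)
  have l4 := h.le (n - 4) (by omega)
  have l5 := h.le (n - 5) (by omega)
  obtain ⟨A, hA⟩ : ∃ A, A = n - f (n - 1) := ⟨_, rfl⟩
  obtain ⟨B, hB⟩ : ∃ B, B = n - f (n - 2) := ⟨_, rfl⟩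
  rw [← hA, ← hB] at e0
  have a1 : 1 ≤ A := by omega
  have b1 : 2 ≤ B := by omega
  have a2 : A ≤ 8 := small A (by omega) (by omega)
  have b2 : B ≤ 8 := small B (by omega) (by omega)
  rw [show n - 1 - f (n - 2) = B - 1 by omega] at e1
  have k1 := h.le (n - 1 - f (n - 3)) (by omega)
  obtain ⟨ha, hb⟩ := pairs5 h a1 a2 b1 b2 (by omega) (by omega)
  subst hb
  have h1 := h.h1
  have h2 := h.h2
  norm_num at e1
  have hw : f (n - 3) = 6 := by omega
  rw [hw] at e1 e2 e3 k1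
  have q1 := h.pos (n - 3 - f (n - 5)) (by omega)
  have p2 : n - 3 - f (n - 4) ≤ 8 := small _ (by omega) (by omega)
  have p3 := le6 h (k := n - 2 - f (n - 4)) (by omega) (by omega)
  have k2 := h.le (n - 2 - 6) (by omega)
  have e6 := h.eqn (n - 6) (by omega)
  rw [show n - 6 - 1 = n - 1 - 6 by omega, show n - 6 - 2 = n - 2 - 6 by omega] at e6
  have g6 := hmin (n - 6) (by omega) (by omega)
  rw [show n - 6 - f (n - 1 - 6) = 1 by omega, show n - 6 - f (n - 2 - 6) = 2 by omega, h1, h2] at e6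
  omega

end Pool.Agent.H30HQ
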