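import Pool.Agent.HofQ.Basic

/-!
# Hofstadter's Q-sequence: growth from below
-/

set_option autoImplicit false

namespace Pool.Agent.H30HQ

open Pool.Agent.HofQ Filter

variable {f : ℕ → ℕ}

theorem dichotomy (h : Sol f) : Tendsto f atTop atTop ∨
    ∃ K : ℕ, ∀ N : ℕ, ∃ n : ℕ, N ≤ n ∧ f n ≤ K ∧ n ≤ f (n - 1) + K ∧ n ≤ f (n - 2) + K ∧
      f (n - 3) ≤ K := by
  classical
  by_cases hT : ∃ b, ∀ N, ∃ n, N ≤ n ∧ f n ≤ b
  · right
    obtain ⟨c, hc⟩ : ∃ c, c = Nat.find hT := ⟨_, rfl⟩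
    have hc1 := Nat.find_spec hT
    rw [← hc] at hc1
    obtain ⟨N0, hN0⟩ : ∃ N0, ∀ n, N0 ≤ n → c ≤ f n := by
      rcases Nat.eq_zero_or_pos c with h0 | h0
      · exact ⟨0, fun n _ => by omega⟩
      · have h1 := Nat.find_min hT (m := c - 1) (by omega)
        push Not at h1
        obtain ⟨N0, h1⟩ := h1
        exact ⟨N0, fun n hn => by have := h1 n hn; omega⟩
    refine ⟨c + 2 * N0, fun N => ?_⟩
    obtain ⟨n, hn, hfn⟩ := hc1 (N + N0 + 5)
    have e1 := h.eqn n (by omega)
    have l1 := h.lt1 n (by omega)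
    have l2 := h.lt2 n (by omega)
    have pA := h.pos (n - f (n - 1)) (by omega)
    have pB := h.pos (n - f (n - 2)) (by omega)
    have hA : n - f (n - 1) < N0 := by
      by_contra hcon
      have := hN0 (n - f (n - 1)) (by omega)
      omega
    have hB : n - f (n - 2) < N0 := by
      by_contra hcon
      have := hN0 (n - f (n - 2)) (by omega)
      omega
    have e2 := h.eqn (n - 1) (by omega)
    have l3 := h.lt1 (n - 1) (by omega)
    have l4 := h.lt2 (n - 1) (by omega)
    have s1 : n - 1 - 1 = n - 2 := by omega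
    have s2 : n - 1 - 2 = n - 3 := by omega
    rw [s1] at e2 l3
    rw [s2] at e2 l4
    have b1 := h.le (n - 1 - f (n - 2)) (by omega)
    have b2 := h.le (n - 1 - f (n - 3)) (by omega)
    refine ⟨n, by omega, by omega, by omega, by omega, by omega⟩
  · left
    push Not at hT
    rw [tendsto_atTop_atTop]
    intro b
    obtain ⟨N, hN⟩ := hT b
    exact ⟨N, fun a ha => (hN a ha).le⟩

theorem lower (h : Sol f) {ε : ℝ} {N : ℕ} (h0 : 0 < ε) (h1 : ε < 1)
    (hN : ∀ n, N ≤ n → (f n : ℝ) ≤ (1 - ε) * n) :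
    ∀ n : ℕ, 1 ≤ n → ((n : ℝ) / (N + 2)) ^ (Real.log 2 / Real.log (1 / ε)) ≤ f n := by
  have hl : 0 < Real.log (1 / ε) := Real.log_pos (by rw [lt_div_iff₀ h0]; linarith)
  obtain ⟨δ, hδ⟩ : ∃ δ, δ = Real.log 2 / Real.log (1 / ε) := ⟨_, rfl⟩
  rw [← hδ]
  have hδ0 : 0 < δ := by
    rw [hδ]
    exact div_pos (Real.log_pos (by norm_num)) hl
  have hεδ : ε ^ δ = 1 / 2 := by
    have h2 : Real.log ε = -Real.log (1 / ε) := by rw [one_div, Real.log_inv, neg_neg]
    rw [Real.rpow_def_of_pos h0, h2, hδ, neg_mul, mul_div_cancel₀ _ hl.ne', Real.exp_neg,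
      Real.exp_log (by norm_num), one_div]
  have hM : (0 : ℝ) < N + 2 := by positivity
  intro n
  induction n using Nat.strong_induction_on with
  | _ n ih =>
    intro hn
    rcases Nat.lt_or_ge (N + 2) n with hlt | hge
    · have e1 := h.eqn n (by omega)
      have l1 := h.lt1 n (by omega)
      have l2 := h.lt2 n (by omega)
      have p1 := h.pos (n - 1) (by omega)
      have p2 := h.pos (n - 2) (by omega)
      have c1 := hN (n - 1) (by omega)
      have c2 := hN (n - 2) (by omega)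
      have iA := ih (n - f (n - 1)) (by omega) (by omega)
      have iB := ih (n - f (n - 2)) (by omega) (by omega)
      have hn0 : (0 : ℝ) < n := by exact_mod_cast (by omega : 0 < n)
      have r1 : ((n - 1 : ℕ) : ℝ) = n - 1 := by rw [Nat.cast_sub (by omega)]; norm_num
      have r2 : ((n - 2 : ℕ) : ℝ) = n - 2 := by rw [Nat.cast_sub (by omega)]; norm_num
      have hA : ε * n ≤ ((n - f (n - 1) : ℕ) : ℝ) := by
        rw [Nat.cast_sub l1.le]
        rw [r1] at c1
        nlinarith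
      have hB : ε * n ≤ ((n - f (n - 2) : ℕ) : ℝ) := by
        rw [Nat.cast_sub l2.le]
        rw [r2] at c2
        nlinarith
      have hkey : (ε * n / (N + 2)) ^ δ = 1 / 2 * ((n : ℝ) / (N + 2)) ^ δ := by
        rw [mul_div_assoc, Real.mul_rpow h0.le (by positivity), hεδ]
      have kA : (ε * n / (N + 2)) ^ δ ≤ (((n - f (n - 1) : ℕ) : ℝ) / (N + 2)) ^ δ :=
        Real.rpow_le_rpow (by positivity) (div_le_div_of_nonneg_right hA hM.le) hδ0.le
      have kB : (ε * n / (N + 2)) ^ δ ≤ (((n - f (n - 2) : ℕ) : ℝ) / (N + 2)) ^ δ :=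
        Real.rpow_le_rpow (by positivity) (div_le_div_of_nonneg_right hB hM.le) hδ0.le
      rw [e1, Nat.cast_add]
      linarith
    · have hx : (n : ℝ) / (N + 2) ≤ 1 := by
        rw [div_le_one hM]
        exact_mod_cast hge
      have hp : (1 : ℝ) ≤ f n := by exact_mod_cast h.pos n hn
      exact (Real.rpow_le_one (by positivity) hx hδ0.le).trans hp

end Pool.Agent.H30HQ
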