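import Pool.Agent.H30HQ.Small8

/-!
# Hofstadter's Q-sequence: the first late value up to ten is nine or ten
-/

set_option autoImplicit false

namespace Pool.Agent.H30HQ

open Pool.Agent.HofQ

variable {f : ℕ → ℕ}

theorem pairs8 (h : Sol f) {A B : ℕ} (a1 : 1 ≤ A) (a2 : A ≤ 11) (b1 : 2 ≤ B) (b2 : B ≤ 11)
    (h1 : f A + f B = 8) (h2 : 12 ≤ A + f (B - 1)) : A = 11 ∧ B = 3 := by
  have w := And.intro h.h1 (And.intro h.h2 (And.intro (v3 h) (And.intro (v4 h) (And.intro (v5 h)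
    (And.intro (v6 h) (And.intro (v7 h) (And.intro (v8 h) (And.intro (v9 h)
    (And.intro (v10 h) (v11 h))))))))))
  obtain ⟨w1, w2, w3, w4, w5, w6, w7, w8, w9, w10, w11⟩ := w
  interval_cases B <;> norm_num at h2 <;> interval_cases A <;> omega

theorem ge11 (h : Sol f) {k : ℕ} (h1 : 18 ≤ k) (h2 : k ≤ 24) : 11 ≤ f k := by
  interval_cases k <;> simp [h.h1, h.h2, v3 h, v4 h, v5 h, v6 h, v7 h, v8 h, v9 h, v10 h, v11 h, v12 h, v13 h, v14 h, v15 h, v16 h, v17 h, v18 h, v19 h, v20 h, v21 h, v22 h, v23 h, v24 h, v25 h, v26 h]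

theorem le11 (h : Sol f) {k : ℕ} (h1 : 1 ≤ k) (h2 : k ≤ 18) : f k ≤ 11 := by
  interval_cases k <;> simp [h.h1, h.h2, v3 h, v4 h, v5 h, v6 h, v7 h, v8 h, v9 h, v10 h, v11 h, v12 h, v13 h, v14 h, v15 h, v16 h, v17 h, v18 h, v19 h, v20 h, v21 h, v22 h, v23 h, v24 h, v25 h, v26 h]

/-- The first late value up to ten is nine or ten. -/
theorem nineTen (h : Sol f) {n P : ℕ} (hmin : ∀ j, 12 ≤ j → j < n → 8 ≤ f j) (hP : 25 ≤ P)
    (hPn : P < n) (hf : f P ≤ 10) : ∃ x, 25 ≤ x ∧ x ≤ P ∧ (f x = 9 ∨ f x = 10) := by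
  classical
  have hex : ∃ z, 18 ≤ z ∧ f z ≤ 10 := ⟨P, by omega, hf⟩
  obtain ⟨Z, ⟨hZ18, hZ10⟩, hmin', hZP⟩ : ∃ n, (18 ≤ n ∧ f n ≤ 10) ∧
      (∀ j < n, ¬ (18 ≤ j ∧ f j ≤ 10)) ∧ n ≤ P :=
    ⟨Nat.find hex, Nat.find_spec hex, fun j hj => Nat.find_min hex hj,
      Nat.find_min' hex ⟨by omega, hf⟩⟩
  have hZ : 25 ≤ Z := by
    by_contra hc
    have := ge11 h hZ18 (by omega)
    omega
  have g0 := hmin Z (by omega) (by omega)
  refine ⟨Z, hZ, hZP, ?_⟩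
  by_contra hc
  have hZ8 : f Z = 8 := by omega
  have s7 : ∀ j, j < Z → f j ≤ 7 → j ≤ 11 := by
    intro j j1 j2
    by_contra hh
    have := hmin j (by omega) (by omega)
    omega
  have s10 : ∀ j, j < Z → f j ≤ 10 → j ≤ 17 := by
    intro j j1 j2
    by_contra hh
    exact hmin' j j1 ⟨by omega, j2⟩
  have b10 : ∀ j, 18 ≤ j → j < Z → 11 ≤ f j := by
    intro j j1 j2
    by_contra hh
    exact hmin' j j2 ⟨j1, by omega⟩
  obtain ⟨e0, e1, e2, e3⟩ := eqs h hZ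
  have g1 := b10 (Z - 1) (by omega) (by omega)
  have g2 := b10 (Z - 2) (by omega) (by omega)
  have g3 := b10 (Z - 3) (by omega) (by omega)
  have g4 := b10 (Z - 4) (by omega) (by omega)
  have g5 := b10 (Z - 5) (by omega) (by omega)
  have l1 := h.le (Z - 1) (by omega)
  have l2 := h.le (Z - 2) (by omega)
  have l3 := h.le (Z - 3) (by omega)
  have l4 := h.le (Z - 4) (by omega)
  have l5 := h.le (Z - 5) (by omega)
  obtain ⟨A, hA⟩ : ∃ A, A = Z - f (Z - 1) := ⟨_, rfl⟩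
  obtain ⟨B, hB⟩ : ∃ B, B = Z - f (Z - 2) := ⟨_, rfl⟩
  rw [← hA, ← hB] at e0
  have a1 : 1 ≤ A := by omega
  have b1 : 2 ≤ B := by omega
  have pA := h.pos A a1
  have pB := h.pos B (by omega)
  have a2 : A ≤ 11 := s7 A (by omega) (by omega)
  have b2 : B ≤ 11 := s7 B (by omega) (by omega)
  rw [show Z - 1 - f (Z - 2) = B - 1 by omega] at e1
  have k1 := h.le (Z - 1 - f (Z - 3)) (by omega)
  obtain ⟨ha, hb⟩ := pairs8 h a1 a2 b1 b2 (by omega) (by omega)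
  subst hb
  have h2 := h.h2
  norm_num at e1
  have hw : f (Z - 3) = 11 := by omega
  rw [hw] at e1 e2 e3 k1
  have q1 := h.pos (Z - 3 - f (Z - 5)) (by omega)
  have p2 := s10 (Z - 3 - f (Z - 4)) (by omega) (by omega)
  have p3 := le11 h (k := Z - 2 - f (Z - 4)) (by omega) (by omega)
  have k2 := h.le (Z - 2 - 11) (by omega)
  have e11 := h.eqn (Z - 11) (by omega)
  rw [show Z - 11 - 1 = Z - 1 - 11 by omega, show Z - 11 - 2 = Z - 2 - 11 by omega] at e11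
  have g11 := hmin (Z - 11) (by omega) (by omega)
  have r1 := le2 h (k := Z - 11 - f (Z - 1 - 11)) (by omega) (by omega)
  have r2 := le2 h (k := Z - 11 - f (Z - 2 - 11)) (by omega) (by omega)
  omega

end Pool.Agent.H30HQ
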