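import Pool.Agent.H30HQ.Small

/-!
# Hofstadter's Q-sequence: if seven is a value, then eight is taken late
-/

set_option autoImplicit false

namespace Pool.Agent.H30HQ

open Pool.Agent.HofQ

variable {f : ℕ → ℕ}


theorem v25 (h : Sol f) : f 25 = 14 := by
  have := h.eqn 25 (by norm_num)
  simpa [h.h1, h.h2, v3 h, v4 h, v5 h, v6 h, v7 h, v8 h, v9 h, v10 h, v11 h, v12 h, v13 h, v14 h, v15 h, v16 h, v17 h, v18 h, v19 h, v20 h, v21 h, v22 h, v23 h, v24 h] using this

theorem v26 (h : Sol f) : f 26 = 14 := by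
  have := h.eqn 26 (by norm_num)
  simpa [h.h1, h.h2, v3 h, v4 h, v5 h, v6 h, v7 h, v8 h, v9 h, v10 h, v11 h, v12 h, v13 h, v14 h, v15 h, v16 h, v17 h, v18 h, v19 h, v20 h, v21 h, v22 h, v23 h, v24 h, v25 h] using this

theorem ge8x (h : Sol f) {k : ℕ} (h1 : 12 ≤ k) (h2 : k ≤ 26) : 8 ≤ f k := by
  interval_cases k <;> simp [h.h1, h.h2, v3 h, v4 h, v5 h, v6 h, v7 h, v8 h, v9 h, v10 h, v11 h, v12 h, v13 h, v14 h, v15 h, v16 h, v17 h, v18 h, v19 h, v20 h, v21 h, v22 h, v23 h, v24 h, v25 h, v26 h]

theorem no7 (h : Sol f) {k : ℕ} (h1 : 1 ≤ k) (h2 : k ≤ 11) : f k ≠ 7 := by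
  interval_cases k <;> simp [h.h1, h.h2, v3 h, v4 h, v5 h, v6 h, v7 h, v8 h, v9 h, v10 h, v11 h, v12 h, v13 h, v14 h, v15 h, v16 h, v17 h, v18 h, v19 h, v20 h, v21 h, v22 h, v23 h, v24 h, v25 h, v26 h]

theorem late8 (h : Sol f) {k : ℕ} (h1 : 15 ≤ k) (h2 : k ≤ 24) : 9 ≤ f k := by
  interval_cases k <;> simp [h.h1, h.h2, v3 h, v4 h, v5 h, v6 h, v7 h, v8 h, v9 h, v10 h, v11 h, v12 h, v13 h, v14 h, v15 h, v16 h, v17 h, v18 h, v19 h, v20 h, v21 h, v22 h, v23 h, v24 h, v25 h, v26 h]

theorem ge3 (h : Sol f) {k : ℕ} (h1 : 4 ≤ k) (h2 : k ≤ 11) : 3 ≤ f k := by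
  interval_cases k <;> simp [h.h1, h.h2, v3 h, v4 h, v5 h, v6 h, v7 h, v8 h, v9 h, v10 h, v11 h, v12 h, v13 h, v14 h, v15 h, v16 h, v17 h, v18 h, v19 h, v20 h, v21 h, v22 h, v23 h, v24 h, v25 h, v26 h]

theorem le6x (h : Sol f) {k : ℕ} (h1 : 1 ≤ k) (h2 : k ≤ 11) : f k ≤ 6 := by
  interval_cases k <;> simp [h.h1, h.h2, v3 h, v4 h, v5 h, v6 h, v7 h, v8 h, v9 h, v10 h, v11 h, v12 h, v13 h, v14 h, v15 h, v16 h, v17 h, v18 h, v19 h, v20 h, v21 h, v22 h, v23 h, v24 h, v25 h, v26 h]

/-- Stronger form: then also the value eight is taken late. -/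
theorem seven8 (h : Sol f) (hex : ∃ n, 12 ≤ n ∧ f n ≤ 7) :
    ∃ m, 34 ≤ m ∧ f m = m ∧ f (m + 2) = 7 ∧ f (m + 1) + 9 = m ∧
      9 ≤ f (m - 1) ∧ f (m - 1) ≤ 11 ∧ m ≤ f (m - 3) + 6 ∧
      (∃ P, 25 ≤ P ∧ P < m ∧ 8 ≤ f P ∧ f P ≤ 10 ∧ 16 ≤ f (P + 1) ∧ f (m - 2) + P + 1 = m) ∧
      (∃ Z, 25 ≤ Z ∧ Z < m ∧ f Z = 8) ∧ ∀ j, 12 ≤ j → j < m + 2 → 8 ≤ f j := by
  classical
  obtain ⟨n, ⟨hn12, hn7⟩, hmin'⟩ : ∃ n, (12 ≤ n ∧ f n ≤ 7) ∧ ∀ j < n, ¬ (12 ≤ j ∧ f j ≤ 7) :=
    ⟨Nat.find hex, Nat.find_spec hex, fun j hj => Nat.find_min hex hj⟩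
  have hmin : ∀ j, 12 ≤ j → j < n → 8 ≤ f j := by
    intro j h1 h2
    have := hmin' j h2
    omega
  have hn27 : 27 ≤ n := by
    by_contra hc
    have := ge8x h hn12 (by omega)
    omega
  have hn : 25 ≤ n := by omega
  have small : ∀ j, j < n → f j ≤ 7 → j ≤ 11 := by
    intro j h1 h2
    by_contra hc
    have := hmin j (by omega) h1
    omega
  obtain ⟨e0, e1, e2, e3⟩ := eqs h hn
  have g1 := hmin (n - 1) (by omega) (by omega)
  have g2 := hmin (n - 2) (by omega) (by omega)
  have g3 := hmin (n - 3) (by omega) (by omega)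
  have g4 := hmin (n - 4) (by omega) (by omega)
  have g5 := hmin (n - 5) (by omega) (by omega)
  have l1 := h.le (n - 1) (by omega)
  have l2 := h.le (n - 2) (by omega)
  have l3 := h.le (n - 3) (by omega)
  have l4 := h.le (n - 4) (by omega)
  have l5 := h.le (n - 5) (by omega)
  obtain ⟨A, hA⟩ : ∃ A, A = n - f (n - 1) := ⟨_, rfl⟩
  obtain ⟨B, hB⟩ : ∃ B, B = n - f (n - 2) := ⟨_, rfl⟩
  rw [← hA, ← hB] at e0
  have a1 : 1 ≤ A := by omega
  have b1 : 2 ≤ B := by omega
  have a2 : A ≤ 11 := small A (by omega) (by omega)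
  have b2 : B ≤ 11 := small B (by omega) (by omega)
  rw [show n - 1 - f (n - 2) = B - 1 by omega] at e1
  have k1 := h.le (n - 1 - f (n - 3)) (by omega)
  have hp := pairs7 h a1 a2 b1 b2 (by omega) (by omega)
  rcases Nat.lt_or_ge (f (n - 3)) 9 with hw | hw
  · exfalso
    have hw8 : f (n - 3) = 8 := by omega
    rw [hw8] at e1 e2 e3 k1
    have q1 := h.pos (n - 3 - f (n - 5)) (by omega)
    have p2 : n - 3 - f (n - 4) ≤ 11 := small _ (by omega) (by omega)
    have p3 := le8 h (k := n - 2 - f (n - 4)) (by omega) (by omega)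
    have k2 := h.le (n - 2 - 8) (by omega)
    have e8 := h.eqn (n - 8) (by omega)
    rw [show n - 8 - 1 = n - 1 - 8 by omega, show n - 8 - 2 = n - 2 - 8 by omega] at e8
    have g8 := hmin (n - 8) (by omega) (by omega)
    have b7 : f (B - 1) ≤ 3 := le3 h (by omega) (by omega)
    have r1 : f (n - 8 - f (n - 1 - 8)) ≤ 3 := by
      refine le3 h (by omega) ?_
      rcases hp with ⟨hb, ha⟩ | ⟨ha, hb⟩ | ⟨ha, hb⟩
      · subst hb
        have := h.h1
        norm_num at e1
        omega
      · subst hb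
        have := h.h2
        norm_num at e1
        omega
      · subst hb
        omega
    have r2 : f (n - 8 - f (n - 2 - 8)) ≤ 3 := le3 h (by omega) (by omega)
    omega
  · have hB2 : B = 2 ∧ 9 ≤ A := by
      rcases hp with ⟨hb, ha⟩ | ⟨ha, hb⟩ | ⟨ha, hb⟩
      · subst hb
        have := h.h1
        norm_num at e1
        exact ⟨rfl, by omega⟩
      · subst hb
        have := h.h2
        norm_num at e1
        omega
      · subst hb
        have := v4 h
        norm_num at e1
        omega
    obtain ⟨hb, ha⟩ := hB2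
    subst hb
    have h1 := h.h1
    have h2 := h.h2
    have fA : f A = 6 := by
      have x9 := v9 h
      have x10 := v10 h
      have x11 := v11 h
      have : A = 9 ∨ A = 10 ∨ A = 11 := by omega
      rcases this with h | h | h <;> rw [h] <;> assumption
    norm_num at e1
    have k2 := h.le (n - 2 - f (n - 3)) (by omega)
    have p1 : 15 ≤ n - 2 - f (n - 4) := by
      by_contra hc
      have := le8 h (k := n - 2 - f (n - 4)) (by omega) (by omega)
      omega
    have p2 := hmin (n - 3 - f (n - 4)) (by omega) (by omega)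
    have q2 := small (n - 3 - f (n - 5)) (by omega) (by omega)
    have q3 : n - 3 - f (n - 5) ≤ 5 := by
      by_contra hc
      have := ge4 h (k := n - 3 - f (n - 5)) (by omega) q2
      omega
    have q1 := h.pos (n - 3 - f (n - 5)) (by omega)
    have ew := h.eqn (n - f (n - 3)) (by omega)
    rw [show n - f (n - 3) - 1 = n - 1 - f (n - 3) by omega,
      show n - f (n - 3) - 2 = n - 2 - f (n - 3) by omega] at ew
    have gw := hmin (n - f (n - 3)) (by omega) (by omega)
    have s1 : f (n - f (n - 3) - f (n - 1 - f (n - 3))) ≤ 2 := le2 h (by omega) (by omega)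
    have s2 : 9 ≤ n - f (n - 3) - f (n - 2 - f (n - 3)) := by
      by_contra hc
      have := le5 h (k := n - f (n - 3) - f (n - 2 - f (n - 3))) (by omega) (by omega)
      omega
    have s3 : 16 ≤ f (n - 2 - f (n - 4)) := by omega
    have s4 : 24 ≤ n - 2 - f (n - 4) := by
      by_contra hc
      have := le12 h (k := n - 2 - f (n - 4)) (by omega) (by omega)
      omega
    have s5 : 25 ≤ n - 3 - f (n - 4) := by
      by_contra hc
      have : n - 3 - f (n - 4) = 23 ∨ n - 3 - f (n - 4) = 24 := by omega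
      have v23' := v23 h
      have v24' := v24 h
      rcases this with hh | hh
      · rw [hh] at e3
        omega
      · rw [hh] at e3
        omega
    have g6 := hmin (n - 6) (by omega) (by omega)
    have g7 := hmin (n - 7) (by omega) (by omega)
    have l6 := h.le (n - 6) (by omega)
    have hf7 : f n = 7 := by omega
    have e4 := h.eqn (n - 4) (by omega)
    rw [show n - 4 - 1 = n - 5 by omega, show n - 4 - 2 = n - 6 by omega] at e4
    have e5 := h.eqn (n - 5) (by omega)
    rw [show n - 5 - 1 = n - 6 by omega, show n - 5 - 2 = n - 7 by omega] at e5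
    have ep1 := h.eqn (n + 1) (by omega)
    rw [show n + 1 - 1 = n by omega, show n + 1 - 2 = n - 1 by omega, hf7,
      show n + 1 - 7 = n - 6 by omega, show n + 1 - f (n - 1) = A + 1 by omega] at ep1
    have lt2 := h.lt1 (n + 2) (by omega)
    rw [show n + 2 - 1 = n + 1 by omega] at lt2
    have ep2 := h.eqn (n + 2) (by omega)
    rw [show n + 2 - 1 = n + 1 by omega, show n + 2 - 2 = n by omega, hf7,
      show n + 2 - 7 = n - 5 by omega] at ep2
    have lp2 := h.le (n + 2) (by omega)
    have hno7 : ∀ j, 1 ≤ j → j < n → f j ≠ 7 := by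
      intro j j1 j2 j3
      exact no7 h j1 (small j j2 (by omega)) j3
    obtain ⟨Q, hQ⟩ : ∃ Q, Q = n - 3 - f (n - 5) := ⟨_, rfl⟩
    rw [← hQ] at e3 q1 q2 q3
    have Q2 : 2 ≤ Q := by omega
    rw [show n - 4 - f (n - 5) = Q - 1 by omega] at e4
    have hA11 : A = 11 := by
      by_contra hA11
      have fA1 : f (A + 1) = 6 := by
        have x10 := v10 h
        have x11 := v11 h
        have : A = 9 ∨ A = 10 := by omega
        rcases this with hh | hh <;> rw [hh] <;> assumption
      rw [fA1] at ep1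
      have t1 : n + 2 - f (n + 1) = n - 4 - f (n - 6) := by omega
      rw [t1] at ep2
      have t2 : Q ≤ 3 := by
        by_contra hc
        have := ge3 h (k := Q) (by omega) (by omega)
        omega
      have t3 : f (Q - 1) = 1 := by
        have : Q = 2 ∨ Q = 3 := by omega
        rcases this with hh | hh
        · rw [hh]; exact h1
        · rw [hh]; exact h2
      have t4 := hno7 (n - 4 - f (n - 6)) (by omega) (by omega)
      have t5 : f (n - 4) = 9 := by omega
      have t6 : f (n - 3) = 10 := by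
        have : Q = 3 := by omega
        have x3 := v3 h
        rw [this, x3] at e3
        omega
      rw [t5, t6] at e2 e3
      rw [show n - 2 - 10 = n - 3 - 9 by omega] at e2
      have t7 := h.le (n - 2 - 9) (by omega)
      have t8 : f (n - 3 - 9) ≤ 9 := by
        have := h.pos Q (by omega)
        omega
      have : Q = 3 := by omega
      have x3 := v3 h
      rw [this, x3] at e3
      omega
    have hZ : ∃ Z, 25 ≤ Z ∧ Z < n - 2 ∧ f Z = 8 := by
      by_cases hP8 : f (n - 3 - f (n - 4)) = 8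
      · exact ⟨_, s5, by omega, hP8⟩
      have x12 := v12 h
      rw [hA11, x12] at ep1
      have t1 : n + 2 - f (n + 1) = n - 6 - f (n - 6) := by omega
      rw [t1] at ep2
      have t2 : Q ≤ 3 := by
        by_contra hc
        have := ge3 h (k := Q) (by omega) (by omega)
        omega
      have t3 : f (Q - 1) = 1 := by
        have : Q = 2 ∨ Q = 3 := by omega
        rcases this with hh | hh
        · rw [hh]; exact h1
        · rw [hh]; exact h2
      obtain ⟨r, hr⟩ : ∃ r, r = n - 6 - f (n - 6) := ⟨_, rfl⟩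
      rw [← hr] at ep2
      have r1 : 1 ≤ r := by omega
      by_cases hr25 : 25 ≤ r
      · have := hmin r (by omega) (by omega)
        exact ⟨r, hr25, by omega, by omega⟩
      exfalso
      have r14 : r ≤ 14 := by
        by_contra hc
        have := late8 h (k := r) (by omega) (by omega)
        omega
      rw [show n - 4 - f (n - 6) = r + 2 by omega] at e4
      have q5 := hno7 (r + 2) (by omega) (by omega)
      have r10 : 10 ≤ r := by
        by_contra hc
        have := le6x h (k := r + 2) (by omega) (by omega)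
        omega
      have fQ : (Q = 2 ∧ f Q = 1) ∨ (Q = 3 ∧ f Q = 2) := by
        have : Q = 2 ∨ Q = 3 := by omega
        rcases this with hh | hh
        · left; exact ⟨hh, by rw [hh]; exact h2⟩
        · right; exact ⟨hh, by rw [hh]; exact v3 h⟩
      have x11 := v11 h
      have x13 := v13 h
      have x14 := v14 h
      have x15 := v15 h
      have x16 := v16 h
      have hw' : f (n - 3) = 10 ∨ f (n - 3) = 11 := by omega
      have hrr : (r ≤ 11 ∧ f (n - 4) = 9) ∨ (r = 12 ∧ f (n - 4) = 9) ∨
          (r = 13 ∧ f (n - 4) = 11) ∨ (r = 14 ∧ f (n - 4) = 10) := by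
        have : r = 10 ∨ r = 11 ∨ r = 12 ∨ r = 13 ∨ r = 14 := by omega
        rcases this with hh | hh | hh | hh | hh <;> subst hh <;> norm_num at e4 <;> omega
      have hx9 : f (n - 4) ≠ 9 := by
        intro hx
        rw [hx] at e2 e3 hP8 p2
        rcases hw' with hw' | hw'
        · rw [hw'] at e1 e2 e3
          rw [show n - 1 - 10 = n - 2 - 9 by omega] at e1
          rw [show n - 2 - 10 = n - 3 - 9 by omega] at e2
          omega
        · rw [hw'] at e1 e2 e3
          rw [show n - 1 - 11 = n - 3 - 9 by omega] at e1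
          omega
      rcases hrr with hrr | hrr | hrr | hrr
      · exact hx9 hrr.2
      · exact hx9 hrr.2
      · obtain ⟨hr13, hx⟩ := hrr
        have hQ3 : Q = 3 := by
          rcases fQ with hh | hh
          · exfalso
            rw [hr13, x13] at ep2
            omega
          · exact hh.1
        have hw11 : f (n - 3) = 11 := by omega
        rw [hw11, hx] at e2 e3
        rw [hw11] at e1
        rw [show n - 5 - f (n - 6) = 14 by omega, x14] at e5
        have k7 := h.le (n - 5 - f (n - 7)) (by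
          by_contra hc
          have : n - 5 - f (n - 7) = 0 := by omega
          have l7 := h.le (n - 7) (by omega)
          omega)
        rw [show n - 2 - 11 = n - 13 by omega] at e2
        have h89 : f (n - 7) = 8 ∨ f (n - 7) = 9 := by omega
        rcases h89 with hh | hh
        · rw [hh, show n - 5 - 8 = n - 13 by omega] at e5
          omega
        · rw [hh, show n - 5 - 9 = n - 3 - 11 by omega] at e5
          omega
      · obtain ⟨hr14, hx⟩ := hrr
        have hQ3 : Q = 3 := by
          rcases fQ with hh | hh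
          · exfalso
            rw [hr14, x14] at ep2
            omega
          · exact hh.1
        have hw11 : f (n - 3) = 11 := by omega
        rw [hw11, hx] at e2 e3
        rw [hw11] at e1
        rw [show n - 2 - 11 = n - 3 - 10 by omega, show n - 2 - 10 = n - 1 - 11 by omega] at e2
        omega
    refine ⟨n - 2, by omega, by omega, ?_, ?_, ?_, ?_, ?_, ⟨n - 3 - f (n - 4), s5, by omega, p2,
      by omega, ?_, ?_⟩, hZ, fun j j1 j2 => hmin j j1 (by omega)⟩
    · rw [show n - 2 + 2 = n by omega]; omega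
    · rw [show n - 2 + 1 = n - 1 by omega]; omega
    · rw [show n - 2 - 1 = n - 3 by omega]; omega
    · rw [show n - 2 - 1 = n - 3 by omega]; omega
    · rw [show n - 2 - 3 = n - 5 by omega]; omega
    · rw [show n - 3 - f (n - 4) + 1 = n - 2 - f (n - 4) by omega]; omega
    · rw [show n - 2 - 2 = n - 4 by omega]; omega

end Pool.Agent.H30HQ
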